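import Pool.Agent.helper54.MZ.Spec1

/-! EQO (project mz:): good backward orbits with the same end point agree. -/

set_option autoImplicit false

open Complex Metric Set Filter Topology MeasureTheory

noncomputable section

namespace MZS

open MPS

theorem EQO_rel {k : ℕ} [NeZero k] (n : ℕ) (c : ℂ) (b g : ZMod k → ℂ) (x : ℕ → ℂ)
    (hb : IsCyc n c b) (h : GO n c b g x) (q : ℕ) (hq : q < k) :
    x (q + 1) ^ n + c = x q ∧ x (q + 1) ≠ 0 := by
  rcases h with h | ⟨i, h⟩
  · exact ⟨h.rel q hq, h.ne0 q hq⟩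
  · have h1 := h (q + 1) hq
    have h2 := h q (le_of_lt hq)
    constructor
    · rw [h1, h2, hb.step]
      congr 1
      push_cast
      ring
    · rw [h1]
      exact hb.ne0 _

theorem EQO_root (n : ℕ) (hn : 2 ≤ n) (z w : ℂ) (hw : w ≠ 0) (h : z ^ n = w ^ n) :
    ∃ j < n, z = om n ^ j * w := by
  have hprim : IsPrimitiveRoot (om n) n := by
    unfold om
    exact Complex.isPrimitiveRoot_exp n (by omega)
  have h1 : (z / w) ^ n = 1 := by
    rw [div_pow, h]
    exact div_self (pow_ne_zero _ hw)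
  have : NeZero n := ⟨by omega⟩
  obtain ⟨j, hj, hj2⟩ := hprim.eq_pow_of_pow_eq_one h1
  refine ⟨j, hj, ?_⟩
  rw [hj2]
  field_simp

theorem EQO (hSEP : SEP_stmt) : EQO_stmt := by
  intro n k _ c b g x x' hn hb hx hx' h0 q
  induction q with
  | zero => intro _; exact h0
  | succ q ih =>
    intro hq
    have hq' : q < k := hq
    have e := ih (le_of_lt hq')
    obtain ⟨r1, _⟩ := EQO_rel n c b g x hb hx q hq'
    obtain ⟨r2, n2⟩ := EQO_rel n c b g x' hb hx' q hq'
    have hpow : x (q + 1) ^ n = x' (q + 1) ^ n := by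
      have : x (q + 1) ^ n + c = x' (q + 1) ^ n + c := by rw [r1, r2, e]
      exact add_right_cancel this
    obtain ⟨j, hj, hj2⟩ := EQO_root n hn _ _ n2 hpow
    rcases Nat.eq_zero_or_pos j with rfl | hjpos
    · simpa using hj2
    · exact absurd hj2 (hSEP n k c b g x x' hn hb hx hx' (q + 1) (by omega) hq j
        (Finset.mem_Ico.mpr ⟨hjpos, hj⟩))

end MZS
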